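import Pool.Agent.H16.TG14

set_option autoImplicit false

open Filter Topology Pool.Agent.H16.CT

namespace Pool.Agent.Results.MP_ec2323_pr.NoCutoff

/-- There is a sequence of finite connected simple graphs with `|V(G n)| → ∞` satisfying the
product condition (typical start) whose continuous-time simple random walks have no total
variation cutoff from a stationary start. -/
theorem result : ∃ (V : ℕ → Type) (_ : ∀ n, Fintype (V n)) (_ : ∀ n, DecidableEq (V n))
    (G : ∀ n, SimpleGraph (V n)) (_ : ∀ n, DecidableRel (G n).Adj) (τ : ℕ → ℝ),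
    (∀ n, (G n).Connected) ∧
    Tendsto (fun n => Fintype.card (V n)) atTop atTop ∧
    (∀ n, ∀ x, {t : ℝ | 0 ≤ t ∧ dist (srw (G n)) (statDist (G n)) x t ≤ 1 / 4}.Nonempty) ∧
    (∀ n, ∀ m : ℝ, IsMedian (srw (G n)) (statDist (G n)) m ↔ m = τ n) ∧
    Tendsto (fun n => τ n / (1 / gapR (srw (G n)))) atTop atTop ∧
    ¬ (∀ ε : ℝ, 0 < ε → ε < 1 →
      Tendsto (fun n => mass (statDist (G n))
        {x | 1 - ε < dist (srw (G n)) (statDist (G n)) x ((1 - ε) * τ n)}) atTop (𝓝 1) ∧
      Tendsto (fun n => mass (statDist (G n))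
        {x | dist (srw (G n)) (statDist (G n)) x ((1 + ε) * τ n) < ε}) atTop (𝓝 1)) := by
  choose G i1 i2 i3 S hsym h0 hgen hcard h1 h2 h3 using
    fun n : ℕ => Pool.Agent.H16.TG.cont (n + 10) (by omega)
  have hS : ∀ n, (S n).Nonempty := by
    intro n
    obtain ⟨a, ha, -⟩ := hgen n 0
    exact ⟨a, ha⟩
  have key := ct_no_cutoff G S h1 h2 (fun n => gapR (QQ (S n)))
    (fun n => gapR_ge (S n) (hsym n) (h0 n) (h3 n))
  refine ⟨G, i2, i3, fun n => Pool.Agent.H16.Cut.cay (S n) (hsym n) (h0 n), fun n => inferInstance,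
    fun n => tau (QQ (S n)) (unif (G n)) 0,
    fun n => Pool.Agent.H16.Cut.cay_conn _ _ _ (hgen n), ?_, ?_, ?_, ?_, ?_⟩
  · exact tendsto_atTop_mono (fun n => (Nat.le_add_right n 10).trans (hcard n)) tendsto_id
  · intro n x
    rw [srw_eq, stat_eq _ _ _ (hS n)]
    exact (tau_bounds (S n) (n + 10) (by omega) (h1 n) (h2 n) x).1
  · intro n m
    rw [srw_eq, stat_eq _ _ _ (hS n)]
    exact median_iff (S n) m
  · simp only [srw_eq]
    exact key.1
  · intro hall
    obtain ⟨ε, e1, e2, e3⟩ := key.2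
    apply e3
    have := (hall ε e1 e2).2
    simp only [srw_eq, stat_eq _ _ _ (hS _)] at this
    exact this

end Pool.Agent.Results.MP_ec2323_pr.NoCutoff
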